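import Pool.Agent.Helper60.CP.Stm4

/-!
# The pairing of `ℍ^n` and its derivatives
-/

set_option autoImplicit false

open Real Set MeasureTheory
open scoped ContDiff LinearAlgebra.Projectivization Quaternion

namespace Pool.Agent.Helper59.CPR

open Pool.Agent.Helper60.CP

/-- `∑ x_j conj(y_j)` -/
noncomputable def ip {n : ℕ} (x y : Hn n) : ℍ[ℝ] := ∑ j, x j * star (y j)

lemma ip_add {n : ℕ} (x x' y : Hn n) : ip (x + x') y = ip x y + ip x' y := by
  simp [ip, add_mul, Finset.sum_add_distrib]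

lemma ip_sub {n : ℕ} (x x' y : Hn n) : ip (x - x') y = ip x y - ip x' y := by
  simp [ip, sub_mul, Finset.sum_sub_distrib]

lemma ip_neg {n : ℕ} (x y : Hn n) : ip (-x) y = -ip x y := by
  simp [ip]

lemma ip_zero {n : ℕ} (y : Hn n) : ip 0 y = 0 := by
  simp [ip]

lemma ip_qsmul {n : ℕ} (q : ℍ[ℝ]) (x y : Hn n) : ip (q • x) y = q * ip x y := by
  simp [ip, Finset.mul_sum, mul_assoc]

lemma ip_rsmul {n : ℕ} (c : ℝ) (x y : Hn n) : ip (c • x) y = c • ip x y := by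
  simp [ip, Finset.smul_sum]

lemma ip_rsmul_right {n : ℕ} (c : ℝ) (x y : Hn n) : ip x (c • y) = c • ip x y := by
  simp [ip, Finset.smul_sum]

lemma star_ip {n : ℕ} (x y : Hn n) : star (ip x y) = ip y x := by
  simp [ip, star_sum, star_mul]

lemma ip_self {n : ℕ} (x : Hn n) : ip x x = ((‖x‖ ^ 2 : ℝ) : ℍ[ℝ]) := by
  have h1 : ‖x‖ ^ 2 = ∑ j, ‖x j‖ ^ 2 := by
    rw [PiLp.norm_eq_of_L2, Real.sq_sqrt (Finset.sum_nonneg fun j _ => by positivity)]
  rw [h1]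
  unfold ip
  have h2 : ∀ j, x j * star (x j) = ((‖x j‖ ^ 2 : ℝ) : ℍ[ℝ]) := by
    intro j
    rw [Quaternion.self_mul_star, Quaternion.normSq_eq_norm_mul_self, sq]
  simp_rw [h2]
  have h3 : ∀ s : Finset (Fin n), ((∑ j ∈ s, ‖x j‖ ^ 2 : ℝ) : ℍ[ℝ]) = ∑ j ∈ s, ((‖x j‖ ^ 2 : ℝ) : ℍ[ℝ]) := by
    intro s
    rw [← Quaternion.algebraMap_def, map_sum]
  exact (h3 _).symm

lemma nu_eq {n : ℕ} (z w : Hn n) : nu z w = (ip w z).im := rfl

lemma hasDerivAt_apply {n : ℕ} {x : ℝ → Hn n} {x' : Hn n} {t : ℝ} (hx : HasDerivAt x x' t)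
    (j : Fin n) : HasDerivAt (fun t => x t j) (x' j) t :=
  ((PiLp.proj (𝕜 := ℝ) 2 (fun _ : Fin n => ℍ[ℝ]) j).hasFDerivAt).comp_hasDerivAt t hx

/-- conjugation as a continuous real linear map -/
noncomputable def starL : ℍ[ℝ] →L[ℝ] ℍ[ℝ] :=
  LinearMap.mkContinuous
    { toFun := fun q => star q
      map_add' := fun a b => star_add a b
      map_smul' := fun c a => by ext <;> simp } 1
    (fun q => by rw [one_mul]; exact (Quaternion.norm_star q).le)

lemma hasDerivAt_star {f : ℝ → ℍ[ℝ]} {f' : ℍ[ℝ]} {t : ℝ} (hf : HasDerivAt f f' t) :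
    HasDerivAt (fun t => star (f t)) (star f') t :=
  (starL.hasFDerivAt (x := f t)).comp_hasDerivAt t hf

lemma hasDerivAt_ip {n : ℕ} {x y : ℝ → Hn n} {x' y' : Hn n} {t : ℝ} (hx : HasDerivAt x x' t)
    (hy : HasDerivAt y y' t) :
    HasDerivAt (fun t => ip (x t) (y t)) (ip x' (y t) + ip (x t) y') t := by
  unfold ip
  rw [← Finset.sum_add_distrib]
  have h := HasDerivAt.fun_sum (u := Finset.univ) (A := fun j t => x t j * star (y t j))
    (A' := fun j => x' j * star (y t j) + x t j * star (y' j)) (x := t) fun j _ =>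
      (hasDerivAt_apply hx j).mul (hasDerivAt_star (hasDerivAt_apply hy j))
  exact h

lemma hasDerivAt_qsmul {n : ℕ} {b : ℝ → ℍ[ℝ]} {b' : ℍ[ℝ]} {x : ℝ → Hn n} {x' : Hn n} {t : ℝ}
    (hb : HasDerivAt b b' t) (hx : HasDerivAt x x' t) :
    HasDerivAt (fun t => b t • x t) (b t • x' + b' • x t) t :=
  hb.smul hx

lemma hasDerivAt_re {f : ℝ → ℍ[ℝ]} {f' : ℍ[ℝ]} {t : ℝ} (hf : HasDerivAt f f' t) :
    HasDerivAt (fun t => (f t).re) f'.re t := by
  have h := hf.inner ℝ (hasDerivAt_const t (1 : ℍ[ℝ]))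
  simpa [Quaternion.inner_def] using h

end Pool.Agent.Helper59.CPR
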