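import Pool.Agent.Helper59.CPR.A

/-!
# The periodic geodesics of the standard metric of `ℍP^n` have length at least `π`
-/

set_option autoImplicit false

open Real Set MeasureTheory
open scoped ContDiff LinearAlgebra.Projectivization Quaternion

namespace Pool.Agent.Helper59.CPR

open Pool.Agent.Helper60.CP

lemma closure_aux {E : Type} [NormedAddCommGroup E] {F : ℝ → E} {s : ℝ → ℝ} {s' t : ℝ}
    (hF : Continuous F) (hs : HasDerivAt s s' t) (hs' : s' ≠ 0) (h : ∀ x, s x ≠ 0 → F x = 0) :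
    F t = 0 := by
  have h1 : ∀ᶠ x in nhdsWithin t {t}ᶜ, s x ≠ 0 := hs.eventually_ne hs'
  have h2 : Filter.Tendsto F (nhdsWithin t {t}ᶜ) (nhds (F t)) :=
    hF.continuousAt.tendsto.mono_left nhdsWithin_le_nhds
  have h3 : Filter.Tendsto F (nhdsWithin t {t}ᶜ) (nhds 0) :=
    tendsto_const_nhds.congr' (h1.mono fun x hx => (h x hx).symm)
  exact tendsto_nhds_unique h2 h3

lemma coe_eq (c : ℝ) : ((c : ℝ) : ℍ[ℝ]) = c • (1 : ℍ[ℝ]) := by
  ext <;> simp

lemma ip_self' {n : ℕ} (x : Hn n) : ip x x = (‖x‖ ^ 2) • (1 : ℍ[ℝ]) := by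
  rw [ip_self, coe_eq]

lemma star_imag {q : ℍ[ℝ]} (h : q.re = 0) : star q = -q := by
  ext <;> simp [h]

lemma imag_sq {q : ℍ[ℝ]} (h : q.re = 0) : q * q = -((‖q‖ ^ 2) • (1 : ℍ[ℝ])) := by
  have h1 : q * star q = ((‖q‖ ^ 2 : ℝ) : ℍ[ℝ]) := by
    rw [Quaternion.self_mul_star, Quaternion.normSq_eq_norm_mul_self, sq]
  rw [star_imag h, mul_neg, coe_eq] at h1
  rw [← h1, neg_neg]

lemma inner_imag (x y : ℍ[ℝ]) {q : ℍ[ℝ]} (h : q.re = 0) :
    inner ℝ (q * x) y + inner ℝ x (q * y) = 0 := by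
  rw [Quaternion.inner_def, Quaternion.inner_def]
  simp only [Quaternion.re_mul, Quaternion.re_star, Quaternion.imI_star, Quaternion.imJ_star,
    Quaternion.imK_star, Quaternion.imI_mul, Quaternion.imJ_mul, Quaternion.imK_mul, h]
  ring

/-- The oscillation: `W' = b W + U`, `U' = b U - v² W`, `b` imaginary, `W 0 = 1`, `U 0 = 0`,
`|W T| = 1`. -/
lemma osc {v T : ℝ} (hv : 0 < v) (hT : 0 < T) {W U b : ℝ → ℍ[ℝ]} (hb : ∀ t, (b t).re = 0)
    (hW : ∀ t, HasDerivAt W (b t * W t + U t) t)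
    (hU : ∀ t, HasDerivAt U (b t * U t - v ^ 2 • W t) t)
    (hW0 : W 0 = 1) (hU0 : U 0 = 0) (hWT : ‖W T‖ = 1) : π ≤ v * T := by
  have hv0 : v ≠ 0 := hv.ne'
  set N : ℝ → ℝ := fun t => inner ℝ (W t) (W t) with hN
  set M : ℝ → ℝ := fun t => inner ℝ (U t) (U t) with hM
  set R : ℝ → ℝ := fun t => inner ℝ (W t) (U t) with hR
  have hNd : ∀ t, HasDerivAt N (2 * R t) t := by
    intro t
    refine ((hW t).inner ℝ (hW t)).congr_deriv ?_
    have := inner_imag (W t) (W t) (hb t)
    rw [inner_add_right, inner_add_left, real_inner_comm (W t) (U t)]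
    simp only [hR]
    linarith
  have hMd : ∀ t, HasDerivAt M (-2 * v ^ 2 * R t) t := by
    intro t
    refine ((hU t).inner ℝ (hU t)).congr_deriv ?_
    have := inner_imag (U t) (U t) (hb t)
    rw [inner_sub_right, inner_sub_left, inner_smul_left, inner_smul_right,
      real_inner_comm (W t) (U t)]
    simp only [hR, conj_trivial]
    linarith
  have hRd : ∀ t, HasDerivAt R (M t - v ^ 2 * N t) t := by
    intro t
    refine ((hW t).inner ℝ (hU t)).congr_deriv ?_
    have := inner_imag (W t) (U t) (hb t)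
    rw [inner_sub_right, inner_add_left, inner_smul_right]
    simp only [hM, hN]
    linarith
  have hN0 : N 0 = 1 := by
    simp only [hN, hW0, real_inner_self_eq_norm_sq, norm_one, one_pow]
  have hM0 : M 0 = 0 := by simp only [hM, hU0, inner_zero_left]
  have hR0 : R 0 = 0 := by simp only [hR, hU0, inner_zero_right]
  have hNT : N T = 1 := by
    simp only [hN, real_inner_self_eq_norm_sq, hWT, one_pow]
  have hc : ∀ t, M t + v ^ 2 * N t = v ^ 2 := by
    have hd : ∀ t, HasDerivAt (fun t => M t + v ^ 2 * N t) 0 t := fun t => by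
      refine ((hMd t).add ((hNd t).const_mul (v ^ 2))).congr_deriv ?_
      ring
    intro t
    have := is_const_of_deriv_eq_zero (fun t => (hd t).differentiableAt) (fun t => (hd t).deriv) t 0
    rw [this, hM0, hN0]
    ring
  have hRd' : ∀ t, HasDerivAt R (-2 * v ^ 2 * (N t - 1 / 2)) t := fun t => by
    refine (hRd t).congr_deriv ?_
    linear_combination hc t
  have hvt : ∀ t, HasDerivAt (fun t : ℝ => 2 * v * t) (2 * v) t := fun t => by
    simpa using (hasDerivAt_id t).const_mul (2 * v)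
  have hp : ∀ t, HasDerivAt (fun t => (N t - 1 / 2) * Real.cos (2 * v * t) -
      R t / v * Real.sin (2 * v * t)) 0 t := by
    intro t
    refine ((((hNd t).sub_const (1 / 2)).mul (hvt t).cos).sub
      (((hRd' t).div_const v).mul (hvt t).sin)).congr_deriv ?_
    field_simp
    ring
  have hq : ∀ t, HasDerivAt (fun t => (N t - 1 / 2) * Real.sin (2 * v * t) +
      R t / v * Real.cos (2 * v * t)) 0 t := by
    intro t
    refine ((((hNd t).sub_const (1 / 2)).mul (hvt t).sin).add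
      (((hRd' t).div_const v).mul (hvt t).cos)).congr_deriv ?_
    field_simp
    ring
  have hpc := is_const_of_deriv_eq_zero (fun t => (hp t).differentiableAt) (fun t => (hp t).deriv)
    T 0
  have hqc := is_const_of_deriv_eq_zero (fun t => (hq t).differentiableAt) (fun t => (hq t).deriv)
    T 0
  simp only [mul_zero, Real.cos_zero, Real.sin_zero, hN0, hR0, hNT, zero_div,
    sub_zero, add_zero, mul_one] at hpc hqc
  have hcs := Real.sin_sq_add_cos_sq (2 * v * T)
  have hcos : Real.cos (2 * v * T) = 1 := by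
    linear_combination (-2 * Real.cos (2 * v * T)) * hpc + (-2 * Real.sin (2 * v * T)) * hqc + hcs
  rw [Real.cos_eq_one_iff] at hcos
  obtain ⟨k, hk⟩ := hcos
  have hπ := Real.pi_pos
  have hpos : 0 < 2 * v * T := by positivity
  have hk0 : 0 < k := by
    by_contra h
    push Not at h
    have : (k : ℝ) ≤ 0 := by exact_mod_cast h
    nlinarith
  have hk1 : (1 : ℝ) ≤ k := by exact_mod_cast hk0
  nlinarith

lemma aux2 {E : Type} [AddCommGroup E] [Module ℝ E] (A1 A B1 B one : E) (S c w w2 : ℝ)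
    (h : S ^ 2 • (A1 - w • one) + c • A - (S ^ 2 • (-((S ^ 2 * w2) • one) + B1) + c • B) +
      -(S ^ 2 * S ^ 2) • -(w2 • one) = (-(S ^ 2 * w) + 2 * S ^ 4 * w2) • one)
    (h2 : B1 = S ^ 2 • A1 + c • A) : B1 = S ^ 2 • B1 + c • B := by
  linear_combination (norm := module) h + h2

lemma aux3 {E : Type} [AddCommGroup E] [Module ℝ E] (Z2 Z1 BZ1 B1Z BZ AZ1 Z : E) (S c l : ℝ)
    (h : S ^ 2 • Z2 + c • Z1 - (S ^ 2 • (BZ1 + B1Z) + c • BZ) + -(S ^ 2 * S ^ 2) • AZ1 = l • Z)
    (h2 : S ^ 2 • BZ1 = (S ^ 2 * S ^ 2) • AZ1) :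
    S ^ 2 • Z2 + c • Z1 - (2 * S ^ 2) • BZ1 - S ^ 2 • B1Z - c • BZ = l • Z := by
  linear_combination (norm := module) h - h2

lemma aux4 {E : Type} [AddCommGroup E] [Module ℝ E] (B1 B : E) (S C r1 : ℝ)
    (hs : S ^ 2 + C ^ 2 = 1) (h : B1 = S ^ 2 • B1 + (2 * S * (C * r1)) • B) :
    C • (C • B1 - (2 * S * r1) • B) = 0 := by
  have h1 : C • (C • B1 - (2 * S * r1) • B) = (C ^ 2) • B1 - (2 * S * (C * r1)) • B := by module
  have h2 : C ^ 2 = 1 - S ^ 2 := by linarith
  rw [h1, h2]
  linear_combination (norm := module) h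

lemma aux5 {E : Type} [AddCommGroup E] [Module ℝ E] (B1 B : E) (S C r1 : ℝ)
    (h : C • (C • B1 - (2 * S * r1) • B) = 0) :
    C ^ 2 • B1 + ((2 : ℕ) * C ^ (2 - 1) * (-S * r1)) • B = 0 := by
  have h1 : ((2 : ℕ) : ℝ) * C ^ (2 - 1) * (-S * r1) = -(2 * S * r1 * C) := by
    norm_num
    ring
  rw [h1]
  linear_combination (norm := module) h

lemma aux6 {E : Type} [AddCommGroup E] [Module ℝ E] (Z2 Z1 BZ1 B1Z BZ Z : E) (S C r1 l k : ℝ)
    (h : S ^ 2 • Z2 + (2 * S * (C * r1)) • Z1 - (2 * S ^ 2) • BZ1 - S ^ 2 • B1Z -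
      (2 * S * (C * r1)) • BZ = l • Z) (hk : l + S * k = 0) :
    S • (k • Z + (2 * C * r1) • Z1 - (2 * S) • BZ1 - (2 * C * r1) • BZ - S • B1Z + S • Z2) = 0 := by
  have h1 : l = -(S * k) := by linarith
  rw [h1] at h
  linear_combination (norm := module) h

lemma aux7 {E : Type} [AddCommGroup E] [Module ℝ E] (one B B1 P0 P1 P2 BP0 BP1 B1P0 : E)
    (C0 C S r1 r2 β v : ℝ)
    (hf : (C * r2 - S * r1 ^ 2 - S * β ^ 2 + v ^ 2 * S) • P0 + (2 * C * r1) • P1 - (2 * S) • BP1 -
      (2 * C * r1) • BP0 - S • B1P0 + S • P2 = 0)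
    (hb : C • B1 - (2 * S * r1) • B = 0) :
    (C0 * (β ^ 2 * C - v ^ 2 * C)) • one + (S • P2 + (C * r1) • P1 + ((C * r1) • P1 +
      (-S * r1 * r1 + C * r2) • P0)) -
      ((C0 * C) • B1 + S • B1P0 + ((C0 * (-S * r1)) • B + (S • BP1 + (C * r1) • BP0))) =
    (C0 * (-S * r1)) • B + (S • BP1 + (C * r1) • BP0) - -(β ^ 2 • ((C0 * C) • one + S • P0)) -
      v ^ 2 • ((C0 * C) • one + S • P0) := by
  linear_combination (norm := module) hf - C0 • hb

theorem t_3R : Pool.Agent.Helper60.CP.S3_R := by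
  intro n γ v T hv hT hγ hper
  obtain ⟨r, z, hr, hz, hnz, hγe, h1, h2, h3⟩ := hγ
  obtain ⟨hr1, hr2⟩ := cd2 hr
  obtain ⟨hz1, hz2⟩ := cd2 hz
  have harg : ∀ x : ℝ, π * x / (2 * (π / 2)) = x := fun x => by
    have := Real.pi_ne_zero
    field_simp
  -- notation
  set S : ℝ → ℝ := fun t => Real.sin (r t) with hS
  set C : ℝ → ℝ := fun t => Real.cos (r t) with hC
  set r1 : ℝ → ℝ := deriv r with hr1d
  set r2 : ℝ → ℝ := deriv (deriv r) with hr2d
  set z1 : ℝ → Hn n := deriv z with hz1d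
  set z2 : ℝ → Hn n := deriv (deriv z) with hz2d
  set a : ℝ → ℍ[ℝ] := fun t => ip (z1 t) (z t) with ha
  have hSC : ∀ t, S t ^ 2 + C t ^ 2 = 1 := fun t => Real.sin_sq_add_cos_sq (r t)
  have hSd : ∀ t, HasDerivAt S (C t * r1 t) t := fun t => (hr1 t).sin
  have hCd : ∀ t, HasDerivAt C (-S t * r1 t) t := fun t => (hr1 t).cos
  have hzz : ∀ t, ip (z t) (z t) = 1 := by
    intro t
    rw [ip_self', hnz t, one_pow, one_smul]
  -- `a` is imaginary
  have hare : ∀ t, (a t).re = 0 := by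
    intro t
    have hd := hasDerivAt_ip (hz1 t) (hz1 t)
    have hd0 : HasDerivAt (fun t => ip (z t) (z t)) 0 t := by
      have : (fun t => ip (z t) (z t)) = fun _ => (1 : ℍ[ℝ]) := funext hzz
      rw [this]
      exact hasDerivAt_const t (1 : ℍ[ℝ])
    have e := hd.unique hd0
    rw [← star_ip (z1 t) (z t)] at e
    have e2 := congrArg QuaternionAlgebra.re e
    simp at e2
    simp only [ha]
    linarith
  have hnu : ∀ t, nu (z t) (z1 t) = a t := by
    intro t
    rw [nu_eq]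
    have := Quaternion.re_add_im (a t)
    rw [hare t] at this
    simpa using this
  set a1 : ℝ → ℍ[ℝ] := fun t => ip (z2 t) (z t) + (‖z1 t‖ ^ 2) • (1 : ℍ[ℝ]) with ha1
  have had : ∀ t, HasDerivAt a (a1 t) t := by
    intro t
    have hd := hasDerivAt_ip (hz2 t) (hz1 t)
    rw [ip_self'] at hd
    exact hd
  have ha1re : ∀ t, (a1 t).re = 0 := by
    intro t
    have hd := hasDerivAt_re (had t)
    have hd0 : HasDerivAt (fun t => (a t).re) 0 t := by
      have : (fun t => (a t).re) = fun _ => (0 : ℝ) := funext hare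
      rw [this]
      exact hasDerivAt_const t (0 : ℝ)
    exact hd.unique hd0
  set b : ℝ → ℍ[ℝ] := fun t => (S t ^ 2) • a t with hb
  set b1 : ℝ → ℍ[ℝ] := fun t => (S t ^ 2) • a1 t + (2 * S t * (C t * r1 t)) • a t with hb1
  have hS2d : ∀ t, HasDerivAt (fun t => S t ^ 2) (2 * S t * (C t * r1 t)) t := by
    intro t
    refine ((hSd t).pow 2).congr_deriv ?_
    norm_num
  have hbd : ∀ t, HasDerivAt b (b1 t) t := fun t => (hS2d t).smul (had t)
  have hbre : ∀ t, (b t).re = 0 := by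
    intro t
    simp only [hb]
    simp [hare t]
  have hb1re : ∀ t, (b1 t).re = 0 := by
    intro t
    simp only [hb1]
    simp [hare t, ha1re t]
  have hbn : ∀ t, ‖b t‖ ^ 2 = S t ^ 4 * ‖a t‖ ^ 2 := by
    intro t
    simp only [hb, norm_smul, Real.norm_eq_abs, abs_pow, sq_abs]
    ring
  have haa : ∀ t, a t * a t = -((‖a t‖ ^ 2) • (1 : ℍ[ℝ])) := fun t => imag_sq (hare t)
  have hbb : ∀ t, b t * b t = -((‖b t‖ ^ 2) • (1 : ℍ[ℝ])) := fun t => imag_sq (hbre t)
  have hba : ∀ t, b t * a t = -((S t ^ 2 * ‖a t‖ ^ 2) • (1 : ℍ[ℝ])) := by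
    intro t
    simp only [hb]
    rw [smul_mul_assoc, haa, smul_neg, smul_smul]
  -- the equations
  have hdf : ∀ t, deriv (fun r => Real.sin r * Real.cos r) (r t) = C t ^ 2 - S t ^ 2 := by
    intro t
    have := ((Real.hasDerivAt_sin (r t)).mul (Real.hasDerivAt_cos (r t))).deriv
    have h : (fun r => Real.sin r * Real.cos r) = Real.sin * Real.cos := rfl
    rw [h, this]
    simp only [hS, hC]
    ring
  have e1 : ∀ t, r2 t = S t * C t * (C t ^ 2 - S t ^ 2) * ‖a t‖ ^ 2 +
      S t * C t * (‖z1 t‖ ^ 2 - ‖a t‖ ^ 2) := by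
    intro t
    have := h1 t
    rw [hdf, Real.deriv_sin, hnu] at this
    exact this
  have e3 : ∀ t, r1 t ^ 2 + (S t * C t) ^ 2 * ‖a t‖ ^ 2 +
      S t ^ 2 * (‖z1 t‖ ^ 2 - ‖a t‖ ^ 2) = v ^ 2 := by
    intro t
    have := h3 t
    rw [hnu] at this
    exact this
  -- the momentum
  have hco : ∀ t, (Real.sin (r t) * Real.cos (r t)) ^ 2 - Real.sin (r t) ^ 2 = -(S t ^ 2 * S t ^ 2) := by
    intro t
    have := hSC t
    simp only [hS, hC] at this ⊢
    linear_combination (Real.sin (r t) ^ 2) * this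
  have hmomd : ∀ t, HasDerivAt (momQ (fun r => Real.sin r * Real.cos r) Real.sin r z)
      (((S t ^ 2) • z2 t + (2 * S t * (C t * r1 t)) • z1 t) -
        ((S t ^ 2) • (b t • z1 t + b1 t • z t) + (2 * S t * (C t * r1 t)) • (b t • z t))) t := by
    intro t
    have hfun : momQ (fun r => Real.sin r * Real.cos r) Real.sin r z = fun t =>
        (S t ^ 2) • z1 t - (S t ^ 2) • (b t • z t) := by
      funext t
      unfold momQ
      rw [← hz1d, hco t, hnu t]
      simp only [hb]
      rw [smul_assoc, smul_smul, neg_smul, sub_eq_add_neg]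
    rw [hfun]
    exact ((hS2d t).smul (hz2 t)).sub ((hS2d t).smul (hasDerivAt_qsmul (hbd t) (hz1 t)))
  have e2 : ∀ t, b1 t = (S t ^ 2) • b1 t + (2 * S t * (C t * r1 t)) • b t ∧
      (S t ^ 2) • z2 t + (2 * S t * (C t * r1 t)) • z1 t - (2 * S t ^ 2) • (b t • z1 t) -
        (S t ^ 2) • (b1 t • z t) - (2 * S t * (C t * r1 t)) • (b t • z t) =
      (-(S t ^ 2 * ‖z1 t‖ ^ 2) + 2 * S t ^ 4 * ‖a t‖ ^ 2) • z t := by
    intro t
    obtain ⟨l, hl⟩ := h2 t
    rw [(hmomd t).deriv] at hl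
    beta_reduce at hl
    rw [hco t, hnu t] at hl
    have hin := congrArg (fun x => ip x (z t)) hl
    simp only [ip_add, ip_sub, ip_rsmul, ip_qsmul, hzz, mul_one] at hin
    have hz2z : ip (z2 t) (z t) = a1 t - (‖z1 t‖ ^ 2) • (1 : ℍ[ℝ]) := by
      simp only [ha1]
      abel
    have hz1z : ip (z1 t) (z t) = a t := rfl
    rw [hz2z, hz1z, hba, haa] at hin
    have hre : -(S t ^ 2 * ‖z1 t‖ ^ 2) + 2 * S t ^ 4 * ‖a t‖ ^ 2 = l := by
      have := congrArg QuaternionAlgebra.re hin
      simp [hare t, ha1re t, hbre t, hb1re t] at this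
      linarith
    have hB : b1 t = (S t ^ 2) • b1 t + (2 * S t * (C t * r1 t)) • b t := by
      have hb1e : b1 t = (S t ^ 2) • a1 t + (2 * S t * (C t * r1 t)) • a t := rfl
      rw [← hre] at hin
      exact aux2 _ _ _ _ _ _ _ _ _ hin hb1e
    refine ⟨hB, ?_⟩
    rw [hre]
    have hbz : (S t ^ 2) • (b t • z1 t) = (S t ^ 2 * S t ^ 2) • (a t • z1 t) := by
      simp only [hb]
      rw [smul_assoc, smul_smul]
    exact aux3 _ _ _ _ _ _ _ _ _ _ hl hbz
  -- continuity
  have cr1 : Continuous r1 := continuous_iff_continuousAt.2 fun t => (hr2 t).continuousAt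
  have cr2 : Continuous r2 := by
    have h2' : ContDiff ℝ (1 + 1) r := by
      have : (1 + 1 : WithTop ℕ∞) = 2 := by norm_num
      rw [this]; exact hr
    have hr' : ContDiff ℝ 1 (deriv r) := (contDiff_succ_iff_deriv.1 h2').2.2
    exact hr'.continuous_deriv le_rfl
  have cz : Continuous z := hz.continuous
  have cz1 : Continuous z1 := continuous_iff_continuousAt.2 fun t => (hz2 t).continuousAt
  have cz2 : Continuous z2 := by
    have h2' : ContDiff ℝ (1 + 1) z := by
      have : (1 + 1 : WithTop ℕ∞) = 2 := by norm_num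
      rw [this]; exact hz
    have hr' : ContDiff ℝ 1 (deriv z) := (contDiff_succ_iff_deriv.1 h2').2.2
    exact hr'.continuous_deriv le_rfl
  have cS : Continuous S := continuous_iff_continuousAt.2 fun t => (hSd t).continuousAt
  have cC : Continuous C := continuous_iff_continuousAt.2 fun t => (hCd t).continuousAt
  have ca : Continuous a := continuous_iff_continuousAt.2 fun t => (had t).continuousAt
  have ca1 : Continuous a1 := by
    have : Continuous fun t => ip (z2 t) (z t) := by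
      unfold ip
      refine continuous_finsetSum _ fun j _ => ?_
      have k1 : Continuous fun t => z2 t j := (PiLp.proj (𝕜 := ℝ) 2 (fun _ : Fin n => ℍ[ℝ]) j).continuous.comp cz2
      have k2 : Continuous fun t => z t j := (PiLp.proj (𝕜 := ℝ) 2 (fun _ : Fin n => ℍ[ℝ]) j).continuous.comp cz
      exact k1.mul (starL.continuous.comp k2)
    simp only [ha1]
    exact this.add ((cz1.norm.pow 2).smul continuous_const)
  have cb : Continuous b := continuous_iff_continuousAt.2 fun t => (hbd t).continuousAt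
  have cb1 : Continuous b1 := by
    simp only [hb1]
    exact ((cS.pow 2).smul ca1).add (((continuous_const.mul cS).mul (cC.mul cr1)).smul ca)
  -- the first bracket
  have hJ : ∀ t, (C t) • ((C t) • b1 t - (2 * S t * r1 t) • b t) = 0 := by
    intro t
    have h := (e2 t).1
    exact aux4 _ _ _ _ _ (hSC t) h
  have hbr : ∀ t, (C t) • b1 t - (2 * S t * r1 t) • b t = 0 := by
    intro t
    by_cases hC0 : C t = 0
    · by_cases hr0 : r1 t = 0
      · rw [hC0, hr0]; simp
      · have hS0 : S t ≠ 0 := by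
          intro h
          have := hSC t
          rw [h, hC0] at this
          norm_num at this
        have hJd : ∀ x, HasDerivAt (fun x => C x ^ 2 • b x) 0 x := by
          intro x
          refine (((hCd x).pow 2).smul (hbd x)).congr_deriv ?_
          simp only [Pi.pow_apply]
          have := hJ x
          exact aux5 _ _ _ _ _ this
        have hJc : ∀ x, C x ^ 2 • b x = 0 := by
          intro x
          have := is_const_of_deriv_eq_zero (fun t => (hJd t).differentiableAt)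
            (fun t => (hJd t).deriv) x t
          rw [this, hC0]
          simp
        have hbt : b t = 0 := closure_aux cb (hCd t) (mul_ne_zero (neg_ne_zero.2 hS0) hr0)
          fun x hx => by
            rcases smul_eq_zero.1 (hJc x) with h | h
            · exact absurd (pow_eq_zero_iff (two_ne_zero) |>.1 h) hx
            · exact h
        rw [hC0, hbt]; simp
    · rcases smul_eq_zero.1 (hJ t) with h | h
      · exact absurd h hC0
      · exact h
  -- the second bracket
  set F : ℝ → Hn n := fun t =>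
    (C t * r2 t - S t * r1 t ^ 2 - S t * ‖b t‖ ^ 2 + v ^ 2 * S t) • z t +
      (2 * C t * r1 t) • z1 t - (2 * S t) • (b t • z1 t) - (2 * C t * r1 t) • (b t • z t) -
      S t • (b1 t • z t) + S t • z2 t with hFd
  have cF : Continuous F := by
    simp only [hFd]
    have k1 : Continuous fun t => b t • z1 t := cb.smul cz1
    have k2 : Continuous fun t => b t • z t := cb.smul cz
    have k3 : Continuous fun t => b1 t • z t := cb1.smul cz
    have k4 : Continuous fun t => ‖b t‖ := cb.norm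
    fun_prop
  have hSF : ∀ t, S t • F t = 0 := by
    intro t
    obtain ⟨hB, e⟩ := e2 t
    have hco2 : (-(S t ^ 2 * ‖z1 t‖ ^ 2) + 2 * S t ^ 4 * ‖a t‖ ^ 2) +
        S t * (C t * r2 t - S t * r1 t ^ 2 - S t * ‖b t‖ ^ 2 + v ^ 2 * S t) = 0 := by
      rw [e1, ← e3 t, hbn]
      have hs := hSC t
      have hs2 : C t ^ 2 = 1 - S t ^ 2 := by linarith
      linear_combination (S t ^ 2 * ‖z1 t‖ ^ 2 + ‖a t‖ ^ 2 * S t ^ 2 * (C t ^ 2 - S t ^ 2)) * hs
    simp only [hFd]
    exact aux6 _ _ _ _ _ _ _ _ _ _ _ e hco2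
  have hF : ∀ t, F t = 0 := by
    intro t
    by_cases hS0 : S t = 0
    · have hC0 : C t ≠ 0 := by
        intro h
        have := hSC t
        rw [h, hS0] at this
        norm_num at this
      have hr0 : r1 t ≠ 0 := by
        intro h
        have := e3 t
        rw [h, hS0] at this
        have : v ^ 2 = 0 := by rw [← this]; ring
        exact hv.ne' (pow_eq_zero_iff (two_ne_zero) |>.1 this)
      refine closure_aux cF (hSd t) (mul_ne_zero hC0 hr0) fun x hx => ?_
      rcases smul_eq_zero.1 (hSF x) with h | h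
      · exact absurd h hx
      · exact h
    · rcases smul_eq_zero.1 (hSF t) with h | h
      · exact absurd h hS0
      · exact h
  -- the function `W = ⟨Z, Z(0)⟩`
  set x0 : Hn n := S 0 • z 0 with hx0
  have hX1 : ∀ t, HasDerivAt (fun t => S t • z t) (S t • z1 t + (C t * r1 t) • z t) t := fun t =>
    (hSd t).smul (hz1 t)
  have hX2 : ∀ t, HasDerivAt (fun t => S t • z1 t + (C t * r1 t) • z t)
      ((S t • z2 t + (C t * r1 t) • z1 t) +
        ((C t * r1 t) • z1 t + (-S t * r1 t * r1 t + C t * r2 t) • z t)) t := fun t =>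
    ((hSd t).smul (hz2 t)).add (((hCd t).mul (hr2 t)).smul (hz1 t))
  set W : ℝ → ℍ[ℝ] := fun t => (C 0 * C t) • (1 : ℍ[ℝ]) + ip (S t • z t) x0 with hWd
  set W1 : ℝ → ℍ[ℝ] := fun t => (C 0 * (-S t * r1 t)) • (1 : ℍ[ℝ]) +
    ip (S t • z1 t + (C t * r1 t) • z t) x0 with hW1d
  have hip : ∀ {x : ℝ → Hn n} {x' : Hn n} {t : ℝ}, HasDerivAt x x' t →
      HasDerivAt (fun t => ip (x t) x0) (ip x' x0) t := by
    intro x x' t hx
    have h := hasDerivAt_ip hx (hasDerivAt_const t x0)
    have h0 : ip (x t) (0 : Hn n) = 0 := by simp [ip]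
    rw [h0, add_zero] at h
    exact h
  have hW1 : ∀ t, HasDerivAt W (W1 t) t := by
    intro t
    exact (((hCd t).const_mul (C 0)).smul_const (1 : ℍ[ℝ])).add (hip (hX1 t))
  have hW2 : ∀ t, HasDerivAt W1 ((C 0 * (-(C t * r1 t) * r1 t + -S t * r2 t)) • (1 : ℍ[ℝ]) +
      ip ((S t • z2 t + (C t * r1 t) • z1 t) +
        ((C t * r1 t) • z1 t + (-S t * r1 t * r1 t + C t * r2 t) • z t)) x0) t := by
    intro t
    exact (((((hSd t).neg).mul (hr2 t)).const_mul (C 0)).smul_const (1 : ℍ[ℝ])).add (hip (hX2 t))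
  set U : ℝ → ℍ[ℝ] := fun t => W1 t - b t * W t with hUd
  have hU : ∀ t, HasDerivAt U (b t * U t - v ^ 2 • W t) t := by
    intro t
    refine ((hW2 t).sub ((hbd t).mul (hW1 t))).congr_deriv ?_
    have hf : ip (F t) x0 = 0 := by rw [hF t, ip_zero]
    have hR : -(C t * r1 t) * r1 t + -S t * r2 t = ‖b t‖ ^ 2 * C t - v ^ 2 * C t := by
      rw [e1, ← e3 t, hbn]
      ring
    have hbbW : b t * (b t * W t) = -((‖b t‖ ^ 2) • W t) := by
      rw [← mul_assoc, hbb, neg_mul, smul_mul_assoc, one_mul]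
    simp only [hUd]
    rw [mul_sub, hbbW, hR]
    simp only [hFd, ip_add, ip_sub, ip_rsmul, ip_qsmul] at hf
    simp only [hWd, hW1d, ip_add, ip_rsmul, mul_add, mul_smul_comm, mul_one]
    exact aux7 _ _ _ _ _ _ _ _ _ _ _ _ _ _ _ _ hf (hbr t)
  have hx00 : ip x0 x0 = (S 0 ^ 2) • (1 : ℍ[ℝ]) := by
    rw [hx0, ip_rsmul, ip_rsmul_right, hzz, smul_smul, sq]
  have hW0 : W 0 = 1 := by
    simp only [hWd]
    rw [← hx0, hx00, ← add_smul]
    have : C 0 * C 0 + S 0 ^ 2 = 1 := by
      have := hSC 0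
      linarith [sq (C 0)]
    rw [this, one_smul]
  have hU0 : U 0 = 0 := by
    simp only [hUd]
    rw [hW0, mul_one]
    simp only [hW1d, hx0, ip_add, ip_rsmul, ip_rsmul_right, hzz]
    have hz1z : ip (z1 0) (z 0) = a 0 := rfl
    rw [hz1z]
    simp only [hb]
    module
  -- the period
  have hsp : vecQ (π / 2) (r T) (z T) ∈ Submodule.span ℍ[ℝ] {vecQ (π / 2) (r 0) (z 0)} := by
    rw [← hγe 0, ← hper 0, zero_add, hγe T]
    exact Submodule.mem_span_singleton_self _
  obtain ⟨c, hc⟩ := Submodule.mem_span_singleton.1 hsp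
  have hc1 : c * ((C 0 : ℝ) : ℍ[ℝ]) = ((C T : ℝ) : ℍ[ℝ]) := by
    have := congrArg Prod.fst hc
    simpa only [vecQ, harg, Prod.smul_fst, smul_eq_mul] using this
  have hc2 : c • x0 = S T • z T := by
    have := congrArg Prod.snd hc
    simpa only [vecQ, harg, Prod.smul_snd] using this
  have hcn : ‖c‖ = 1 := by
    have g1 : ‖c‖ * |C 0| = |C T| := by
      have := congrArg norm hc1
      simpa only [norm_mul, Quaternion.norm_coe, Real.norm_eq_abs] using this
    have g2 : ‖c‖ * |S 0| = |S T| := by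
      have h := congrArg norm hc2
      have h5 : ‖c • x0‖ = ‖c‖ * ‖x0‖ := norm_smul c x0
      rw [h5] at h
      simpa only [hx0, norm_smul, hnz, mul_one, Real.norm_eq_abs] using h
    have g3 : ‖c‖ ^ 2 = 1 := by
      have k1 : ‖c‖ ^ 2 * C 0 ^ 2 = C T ^ 2 := by
        rw [← sq_abs (C 0), ← sq_abs (C T), ← g1]; ring
      have k2 : ‖c‖ ^ 2 * S 0 ^ 2 = S T ^ 2 := by
        rw [← sq_abs (S 0), ← sq_abs (S T), ← g2]; ring
      have k3 := hSC 0
      have k4 := hSC T
      linear_combination k1 + k2 + k4 - ‖c‖ ^ 2 * k3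
    have := norm_nonneg c
    nlinarith
  have hWT : W T = c := by
    have hc1' : (C T) • (1 : ℍ[ℝ]) = (C 0) • c := by
      rw [← coe_eq, ← hc1, coe_eq, mul_smul_comm, mul_one]
    simp only [hWd]
    rw [← hc2, ip_qsmul, hx00, mul_smul_comm, mul_one, mul_smul, hc1', smul_smul, ← add_smul]
    have : C 0 * C 0 + S 0 ^ 2 = 1 := by
      have := hSC 0
      linarith [sq (C 0)]
    rw [this, one_smul]
  exact osc hv hT hbre (fun t => (hW1 t).congr_deriv (by simp only [hUd]; abel)) hU hW0 hU0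
    (by rw [hWT, hcn])

end Pool.Agent.Helper59.CPR
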